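import Pool.Agent.Helper43.GH.Bas
import Pool.Agent.Helper98.MH.Onb

/-!
Project GH, block S: the commutant of the part of nonzero degree is trivial.
-/

set_option linter.unusedSectionVars false
set_option linter.unusedVariables false

open Matrix Module

namespace GH

open MH

variable {n : Type*} [Fintype n] [DecidableEq n] {L : Submodule ℂ (Matrix n n ℂ)} {h : Matrix n n ℂ}
  {E : ℝ → Matrix n n ℂ} {Λ : Finset ℝ}

private lemma rank_mv47 (a : Matrix n n ℂ) : a.rank = finrank ℂ (LinearMap.range a.mulVecLin) := rfl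

/-- Frobenius' rank inequality, the case of product zero. -/
private lemma frob47 {a b c : Matrix n n ℂ} (h0 : a * b * c = 0) :
    (a * b).rank + (b * c).rank ≤ b.rank := by
  set R := LinearMap.range b.mulVecLin with hR
  have h1 := LinearMap.finrank_range_add_finrank_ker (a.mulVecLin.domRestrict R)
  have h2 : LinearMap.range (a.mulVecLin.domRestrict R) = LinearMap.range (a * b).mulVecLin := by
    ext v
    constructor
    · rintro ⟨⟨_, w, rfl⟩, rfl⟩
      exact ⟨w, by simp [Matrix.mulVec_mulVec]⟩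
    · rintro ⟨w, rfl⟩
      exact ⟨⟨b.mulVecLin w, w, rfl⟩, by simp [Matrix.mulVec_mulVec]⟩
  have h3 : finrank ℂ (LinearMap.range (b * c).mulVecLin) ≤
      finrank ℂ (LinearMap.ker (a.mulVecLin.domRestrict R)) := by
    let φ : LinearMap.range (b * c).mulVecLin →ₗ[ℂ] LinearMap.ker (a.mulVecLin.domRestrict R) :=
      { toFun := fun v => ⟨⟨v.1, by
          obtain ⟨w, hw⟩ := v.2
          rw [← hw]
          exact ⟨c *ᵥ w, by simp [Matrix.mulVec_mulVec]⟩⟩, by
          obtain ⟨w, hw⟩ := v.2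
          rw [LinearMap.mem_ker, LinearMap.domRestrict_apply]
          simp only [← hw]
          simp only [Matrix.mulVecLin_apply, Matrix.mulVec_mulVec, ← mul_assoc, h0,
            Matrix.zero_mulVec]⟩
        map_add' := fun _ _ => rfl
        map_smul' := fun _ _ => rfl }
    apply LinearMap.finrank_le_finrank_of_injective (f := φ)
    intro u v huv
    have := congrArg (fun z => ((z : LinearMap.ker (a.mulVecLin.domRestrict R)).1 : n → ℂ)) huv
    exact Subtype.ext this
  rw [h2] at h1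
  rw [rank_mv47, rank_mv47, rank_mv47, ← hR]
  omega

private lemma rank_add47 (a b : Matrix n n ℂ) : (a + b).rank ≤ a.rank + b.rank := by
  rw [rank_mv47, rank_mv47, rank_mv47]
  have h1 : LinearMap.range (a + b).mulVecLin ≤
      LinearMap.range a.mulVecLin ⊔ LinearMap.range b.mulVecLin := by
    rintro _ ⟨v, rfl⟩
    rw [Matrix.mulVecLin_apply, Matrix.add_mulVec]
    exact Submodule.add_mem_sup ⟨v, rfl⟩ ⟨v, rfl⟩
  exact (Submodule.finrank_mono h1).trans (Submodule.finrank_add_le_finrank_add_finrank _ _)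

/-- an eigenvector `w` of `ad s` with `w ^ 2 = 0` has rank at most that of `s`. -/
private lemma rank_le47 {s w : Matrix n n ℂ} {δ : ℂ} (hδ : δ ≠ 0) (hw : s * w - w * s = δ • w)
    (hww : w * w = 0) : w.rank ≤ s.rank := by
  have h0 : w * s * w = 0 := by
    have : s * w = w * s + δ • w := by rw [← hw]; abel
    rw [mul_assoc, this, mul_add, ← mul_assoc, hww, mul_smul_comm, hww]
    simp
  have h1 := frob47 h0
  have h2 : w = δ⁻¹ • (s * w - w * s) := by rw [hw, smul_smul, inv_mul_cancel₀ hδ, one_smul]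
  have h3 : w.rank ≤ (s * w - w * s).rank := by
    conv_lhs => rw [h2]
    have : δ⁻¹ • (s * w - w * s) = (δ⁻¹ • (1 : Matrix n n ℂ)) * (s * w - w * s) := by
      rw [smul_mul_assoc, one_mul]
    rw [this]
    exact Matrix.rank_mul_le_right _ _
  have h4 : (s * w - w * s).rank ≤ (s * w).rank + (w * s).rank := by
    rw [sub_eq_add_neg]
    refine (rank_add47 _ _).trans ?_
    have : (-(w * s)).rank ≤ (w * s).rank := by
      have : -(w * s) = (-(1 : Matrix n n ℂ)) * (w * s) := by rw [neg_mul, one_mul]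
      rw [this]
      exact Matrix.rank_mul_le_right _ _
    omega
  omega

/-- the commutant of `h` and of the part of nonzero degree -/
private def BB47 (L : Submodule ℂ (Matrix n n ℂ)) (h : Matrix n n ℂ) :
    Subalgebra ℂ (Matrix n n ℂ) where
  carrier := {T | T * h = h * T ∧ ∀ ν : ℝ, ν ≠ 0 → ∀ x ∈ Ld L h ν, T * x = x * T}
  mul_mem' := by
    rintro a b ⟨ha, ha'⟩ ⟨hb, hb'⟩
    refine ⟨?_, fun ν hν x hx => ?_⟩
    · rw [mul_assoc, hb, ← mul_assoc, ha, mul_assoc]
    · rw [mul_assoc, hb' ν hν x hx, ← mul_assoc, ha' ν hν x hx, mul_assoc]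
  add_mem' := by
    rintro a b ⟨ha, ha'⟩ ⟨hb, hb'⟩
    refine ⟨?_, fun ν hν x hx => ?_⟩
    · rw [add_mul, mul_add, ha, hb]
    · rw [add_mul, mul_add, ha' ν hν x hx, hb' ν hν x hx]
  algebraMap_mem' := by
    intro r
    exact ⟨Algebra.commutes r h, fun ν hν x hx => Algebra.commutes r x⟩

private lemma BB_star47 (G : Gr L h E Λ) {T : Matrix n n ℂ} (hT : T ∈ BB47 L h) :
    Tᴴ ∈ BB47 L h := by
  refine ⟨?_, fun ν hν x hx => ?_⟩
  · have := congrArg conjTranspose hT.1
    rw [conjTranspose_mul, conjTranspose_mul, G.spec.hh] at this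
    exact this.symm
  · have := congrArg conjTranspose (hT.2 (-ν) (by simpa using hν) xᴴ (G.star_Ld hx))
    rw [conjTranspose_mul, conjTranspose_mul, conjTranspose_conjTranspose] at this
    exact this.symm

private lemma BB_br47 (G : Gr L h E Λ) {T y : Matrix n n ℂ} (hT : T ∈ BB47 L h) (hy : y ∈ L) :
    y * T - T * y ∈ BB47 L h := by
  classical
  have key : ∀ ν : ℝ, cmp E Λ ν y * T - T * cmp E Λ ν y ∈ BB47 L h := by
    intro ν
    have hyν := G.cmp_mem_Ld hy ν
    by_cases hν : ν = 0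
    · subst hν
      set y0 := cmp E Λ 0 y with hy0d
      have hy0 : h * y0 - y0 * h = 0 := by
        have := hyν.2
        simpa using this
      refine ⟨?_, fun ν hν x hx => ?_⟩
      · have h1 : T * h - h * T = 0 := sub_eq_zero.mpr hT.1
        have e : (y0 * T - T * y0) * h - h * (y0 * T - T * y0) =
            y0 * (T * h - h * T) - (T * h - h * T) * y0 + T * (h * y0 - y0 * h) -
              (h * y0 - y0 * h) * T := by noncomm_ring
        rw [h1, hy0] at e
        rw [← sub_eq_zero, e]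
        simp
      · have h1 := G.br_Ld hyν hx
        rw [zero_add] at h1
        have h2 : T * (y0 * x - x * y0) - (y0 * x - x * y0) * T = 0 :=
          sub_eq_zero.mpr (hT.2 ν hν _ h1)
        have h3 : T * x - x * T = 0 := sub_eq_zero.mpr (hT.2 ν hν x hx)
        have e : (y0 * T - T * y0) * x - x * (y0 * T - T * y0) =
            y0 * (T * x - x * T) - (T * (y0 * x - x * y0) - (y0 * x - x * y0) * T) -
              (T * x - x * T) * y0 := by noncomm_ring
        rw [h2, h3] at e
        rw [← sub_eq_zero, e]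
        simp
    · rw [hT.2 ν hν _ hyν, sub_self]
      exact (BB47 L h).zero_mem
  have e : y * T - T * y = ∑ ν ∈ (Λ ×ˢ Λ).image (fun p => p.1 - p.2),
      (cmp E Λ ν y * T - T * cmp E Λ ν y) := by
    rw [Finset.sum_sub_distrib, ← Finset.sum_mul, ← Finset.mul_sum, ← G.spec.sum_cmp y]
  rw [e]
  exact sum_mem fun ν _ => key ν

/-- An algebra closed under the adjoint contains a minimal projection of minimal rank. -/
private theorem minproj47 (B : Subalgebra ℂ (Matrix n n ℂ)) (st : ∀ x ∈ B, xᴴ ∈ B)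
    {w : Matrix n n ℂ} (hw : w ∈ B) (hw0 : w ≠ 0) :
    ∃ p ∈ B, p * p = p ∧ pᴴ = p ∧ p ≠ 0 ∧ (∀ y ∈ B, ∃ c : ℂ, p * y * p = c • p) ∧
      p.rank ≤ w.rank := by
  classical
  have hex : ∃ r : ℕ, ∃ a ∈ B, a ≠ 0 ∧ a.rank = r := ⟨w.rank, w, hw, hw0, rfl⟩
  obtain ⟨a, ha, ha0, har⟩ := Nat.find_spec hex
  have hmin : ∀ b ∈ B, b ≠ 0 → a.rank ≤ b.rank := by
    intro b hb hb0
    rw [har]
    exact Nat.find_min' hex ⟨b, hb, hb0, rfl⟩
  -- key property
  have key : ∀ y ∈ B, ∃ t : ℂ, a * y * a = t • a := by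
    intro y hy
    let R : Submodule ℂ (n → ℂ) := LinearMap.range (Matrix.toLin' a)
    have hst : ∀ v ∈ R, Matrix.toLin' (a * y) v ∈ R := by
      intro v _
      rw [Matrix.toLin'_mul]
      exact LinearMap.mem_range_self _ _
    let f : R →ₗ[ℂ] R := (Matrix.toLin' (a * y)).restrict hst
    have hRne : Nontrivial R := by
      rw [Submodule.nontrivial_iff_ne_bot]
      intro h0
      apply ha0
      have : Matrix.toLin' a = 0 := LinearMap.range_eq_bot.mp h0
      exact Matrix.toLin'.injective (by rw [this, map_zero])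
    obtain ⟨t, ht⟩ := Module.End.exists_eigenvalue f
    obtain ⟨v, hv⟩ := ht.exists_hasEigenvector
    refine ⟨t, ?_⟩
    by_contra hne
    have hne' : a * y * a - t • a ≠ 0 := fun h' => hne (sub_eq_zero.mp h')
    have hmem : a * y * a - t • a ∈ B :=
      sub_mem (mul_mem (mul_mem ha hy) ha) (SMulMemClass.smul_mem t ha)
    have hle := hmin _ hmem hne'
    obtain ⟨w, hw⟩ := v.2
    have hvw : a *ᵥ w = (v : n → ℂ) := by rw [← hw, Matrix.toLin'_apply]
    have hv0 : (v : n → ℂ) ≠ 0 := fun h0 => hv.2 (Subtype.ext h0)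
    have hfv : (a * y) *ᵥ (v : n → ℂ) = t • (v : n → ℂ) := by
      have h1 := hv.apply_eq_smul
      have h2 := congrArg Subtype.val h1
      simpa [f] using h2
    have hker : LinearMap.ker (Matrix.toLin' a) <
        LinearMap.ker (Matrix.toLin' (a * y * a - t • a)) := by
      rw [lt_iff_le_and_ne]
      constructor
      · intro u hu
        rw [LinearMap.mem_ker, Matrix.toLin'_apply] at hu ⊢
        rw [Matrix.sub_mulVec, ← Matrix.mulVec_mulVec, hu, Matrix.smul_mulVec, hu]
        simp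
      · intro heq
        have : w ∈ LinearMap.ker (Matrix.toLin' a) := by
          rw [heq, LinearMap.mem_ker, Matrix.toLin'_apply, Matrix.sub_mulVec,
            ← Matrix.mulVec_mulVec, hvw, hfv, Matrix.smul_mulVec, hvw, sub_self]
        rw [LinearMap.mem_ker, Matrix.toLin'_apply, hvw] at this
        exact hv0 this
    have h1 := Submodule.finrank_lt_finrank_of_lt hker
    have h2 := LinearMap.finrank_range_add_finrank_ker (Matrix.toLin' a)
    have h3 := LinearMap.finrank_range_add_finrank_ker (Matrix.toLin' (a * y * a - t • a))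
    have h4 : a.rank = Module.finrank ℂ (LinearMap.range (Matrix.toLin' a)) := by
      rw [Matrix.rank_eq_finrank_range_toLin a (Pi.basisFun ℂ n) (Pi.basisFun ℂ n),
        Matrix.toLin_eq_toLin']
    have h5 : (a * y * a - t • a).rank =
        Module.finrank ℂ (LinearMap.range (Matrix.toLin' (a * y * a - t • a))) := by
      rw [Matrix.rank_eq_finrank_range_toLin _ (Pi.basisFun ℂ n) (Pi.basisFun ℂ n),
        Matrix.toLin_eq_toLin']
    omega
  obtain ⟨t, ht⟩ := key _ (st a ha)
  have hpos := trace_pos ha0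
  have him := trace_im a
  have haa : aᴴ * a ≠ 0 := fun h0 => ha0 (eq_zero_of_mul h0)
  have hsq : (aᴴ * a) * (aᴴ * a) = t • (aᴴ * a) := by
    have : (aᴴ * a) * (aᴴ * a) = aᴴ * (a * aᴴ * a) := by simp only [mul_assoc]
    rw [this, ht, mul_smul_comm]
  have hsa : (aᴴ * a)ᴴ = aᴴ * a := by rw [conjTranspose_mul, conjTranspose_conjTranspose]
  have hpos2 := trace_pos haa
  rw [hsa, hsq, Matrix.trace_smul, smul_eq_mul] at hpos2
  have him2 := trace_im (aᴴ * a)
  rw [hsa, hsq, Matrix.trace_smul, smul_eq_mul] at him2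
  rw [Complex.mul_re, him, mul_zero, sub_zero] at hpos2
  rw [Complex.mul_im, him, mul_zero, zero_add] at him2
  have htim : t.im = 0 := by
    rcases mul_eq_zero.mp him2 with h1 | h1
    · exact h1
    · exact absurd h1 hpos.ne'
  have htre : 0 < t.re := pos_iff_pos_of_mul_pos hpos2 |>.mpr hpos
  have ht0 : t ≠ 0 := by intro h0; rw [h0] at htre; simp at htre
  have htr : (starRingEnd ℂ) t = t := by
    apply Complex.ext
    · rw [Complex.conj_re]
    · rw [Complex.conj_im, htim, neg_zero]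
  refine ⟨t⁻¹ • (aᴴ * a), SMulMemClass.smul_mem _ (mul_mem (st a ha) ha), ?_, ?_, ?_, ?_, ?_⟩
  · rw [smul_mul_smul_comm, hsq, smul_smul, mul_assoc, inv_mul_cancel₀ ht0, mul_one]
  · rw [conjTranspose_smul, hsa]
    congr 1
    rw [← starRingEnd_apply, map_inv₀, htr]
  · intro h0
    rcases smul_eq_zero.mp h0 with h1 | h1
    · exact ht0 (inv_eq_zero.mp h1)
    · exact haa h1
  · intro y hy
    obtain ⟨c, hc⟩ := key (y * aᴴ) (mul_mem hy (st a ha))
    refine ⟨t⁻¹ * c, ?_⟩
    rw [smul_mul_assoc, smul_mul_smul_comm]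
    have : aᴴ * a * y * (aᴴ * a) = aᴴ * (a * (y * aᴴ) * a) := by simp only [mul_assoc]
    rw [this, hc, mul_smul_comm, smul_smul, smul_smul]
    congr 1
    ring
  · have h1 : t⁻¹ • (aᴴ * a) = (t⁻¹ • aᴴ) * a := by rw [smul_mul_assoc]
    rw [h1]
    exact (Matrix.rank_mul_le_right _ _).trans (hmin w hw hw0)

/-- Let `s` be diagonalisable, `B` an algebra stable under `ad s`, and `T` in `B` an element that does not commute
with `s`. Then `B` contains a nonzero eigenvector of `ad s` of square zero with nonzero eigenvalue. -/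
private theorem exists_w47 (B : Subalgebra ℂ (Matrix n n ℂ)) {s : Matrix n n ℂ} (hs : Dg s)
    (hB : ∀ x ∈ B, s * x - x * s ∈ B) {T : Matrix n n ℂ} (hT : T ∈ B) (hTs : T * s ≠ s * T) :
    ∃ w ∈ B, w ≠ 0 ∧ w * w = 0 ∧ ∃ δ : ℂ, δ ≠ 0 ∧ s * w - w * s = δ • w := by
  classical
  obtain ⟨Λs, F, hF, hF1, hsF⟩ := hs
  have hsup : ∀ μ, μ ∉ Λs → F μ = 0 := by
    intro μ hμ
    have h1 : F μ = F μ * ∑ ν ∈ Λs, F ν := by rw [hF1, mul_one]
    rw [h1, Finset.mul_sum]
    apply Finset.sum_eq_zero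
    intro ν hν
    rw [hF, if_neg]
    rintro rfl
    exact hμ hν
  have hl : ∀ μ, s * F μ = μ • F μ := by
    intro μ
    rw [hsF, Finset.sum_mul]
    by_cases hμ : μ ∈ Λs
    · rw [Finset.sum_eq_single μ]
      · rw [smul_mul_assoc, hF, if_pos rfl]
      · intro ν _ hν
        rw [smul_mul_assoc, hF, if_neg hν, smul_zero]
      · intro h'; exact absurd hμ h'
    · simp [hsup μ hμ]
  have hr : ∀ μ, F μ * s = μ • F μ := by
    intro μ
    rw [hsF, Finset.mul_sum]
    by_cases hμ : μ ∈ Λs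
    · rw [Finset.sum_eq_single μ]
      · rw [mul_smul_comm, hF, if_pos rfl]
      · intro ν _ hν
        rw [mul_smul_comm, hF, if_neg (Ne.symm hν), smul_zero]
      · intro h'; exact absurd hμ h'
    · simp [hsup μ hμ]
  have hbl : ∀ x : Matrix n n ℂ, x = ∑ p ∈ Λs ×ˢ Λs, F p.1 * x * F p.2 := by
    intro x
    rw [Finset.sum_product]
    have : x = (∑ μ ∈ Λs, F μ) * x * (∑ μ' ∈ Λs, F μ') := by rw [hF1, one_mul, mul_one]
    conv_lhs => rw [this]
    rw [Finset.sum_mul, Finset.sum_mul]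
    apply Finset.sum_congr rfl
    intro μ _
    rw [Finset.mul_sum]
  have hbr : ∀ (x : Matrix n n ℂ) (μ ν : ℂ), s * (F μ * x * F ν) - F μ * x * F ν * s =
      (μ - ν) • (F μ * x * F ν) := by
    intro x μ ν
    rw [← mul_assoc, ← mul_assoc, hl, mul_assoc (F μ * x), hr, smul_mul_assoc, smul_mul_assoc,
      mul_smul_comm, sub_smul]
  set DD : Finset ℂ := (Λs ×ˢ Λs).image (fun p => p.1 - p.2) with hDD
  let c : ℂ → Matrix n n ℂ → Matrix n n ℂ := fun δ x =>
    ∑ p ∈ (Λs ×ˢ Λs).filter (fun p => p.1 - p.2 = δ), F p.1 * x * F p.2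
  have hc1 : ∀ δ x, s * c δ x - c δ x * s = δ • c δ x := by
    intro δ x
    simp only [c]
    rw [Finset.mul_sum, Finset.sum_mul, ← Finset.sum_sub_distrib, Finset.smul_sum]
    apply Finset.sum_congr rfl
    intro p hp
    rw [hbr, (Finset.mem_filter.mp hp).2]
  have hc2 : ∀ x, ∑ δ ∈ DD, c δ x = x := by
    intro x
    conv_rhs => rw [hbl x]
    simp only [c]
    exact Finset.sum_fiberwise_of_maps_to (fun p hp => Finset.mem_image_of_mem _ hp) _
  have hin : ∀ (x : Matrix n n ℂ) (δ : ℂ), x ≠ 0 → s * x - x * s = δ • x → δ ∈ DD := by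
    intro x δ hx hδ
    by_contra hn
    apply hx
    rw [hbl x]
    apply Finset.sum_eq_zero
    intro p hp
    have h1 : F p.1 * (s * x - x * s) * F p.2 = (p.1 - p.2) • (F p.1 * x * F p.2) := by
      rw [mul_sub, sub_mul, ← mul_assoc (F p.1) s x, hr, mul_assoc (F p.1) (x * s),
        mul_assoc x s, hl, sub_smul, smul_mul_assoc, smul_mul_assoc, mul_smul_comm,
        mul_smul_comm, mul_assoc]
    rw [hδ, mul_smul_comm, smul_mul_assoc] at h1
    have h2 : ((p.1 - p.2) - δ) • (F p.1 * x * F p.2) = 0 := by rw [sub_smul, ← h1, sub_self]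
    rcases smul_eq_zero.mp h2 with h3 | h3
    · exfalso; apply hn
      rw [hDD]
      exact Finset.mem_image.mpr ⟨p, hp, by rw [← sub_eq_zero]; exact h3⟩
    · exact h3
  let A : Matrix n n ℂ →ₗ[ℂ] Matrix n n ℂ :=
    { toFun := fun y => s * y - y * s
      map_add' := by intro a b; noncomm_ring
      map_smul' := by intro c a; simp [smul_sub] }
  have hcB : ∀ δ ∈ DD, c δ T ∈ B := by
    have := eig_mem (K := ℂ) A (M := Subalgebra.toSubmodule B) (fun y hy => hB y hy) DD
      (fun δ => c δ T) (fun δ _ => hc1 δ T) (by rw [hc2]; exact hT)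
    exact this
  let S : Finset ℂ := DD.filter (fun δ => δ ≠ 0 ∧ ∃ w ∈ B, w ≠ 0 ∧ s * w - w * s = δ • w)
  have hS : S.Nonempty := by
    by_contra hemp
    rw [Finset.not_nonempty_iff_eq_empty] at hemp
    apply hTs
    have h1 : ∀ δ ∈ DD, s * c δ T - c δ T * s = 0 := by
      intro δ hδ
      by_cases h0 : δ = 0
      · rw [hc1, h0, zero_smul]
      · by_cases h2 : c δ T = 0
        · rw [h2]; simp
        · exfalso
          have : δ ∈ S := Finset.mem_filter.mpr ⟨hδ, h0, c δ T, hcB δ hδ, h2, hc1 δ T⟩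
          rw [hemp] at this
          simp at this
    have h2 : s * T - T * s = 0 := by
      rw [← hc2 T, Finset.mul_sum, Finset.sum_mul, ← Finset.sum_sub_distrib]
      exact Finset.sum_eq_zero h1
    exact (sub_eq_zero.mp h2).symm
  obtain ⟨δ, hδ, hmax⟩ := Finset.exists_max_image S (fun δ => ‖δ‖) hS
  obtain ⟨hδD, hδ0, w, hw, hw0, hsw⟩ := Finset.mem_filter.mp hδ
  refine ⟨w, hw, hw0, ?_, δ, hδ0, hsw⟩
  by_contra hww
  have h1 : s * (w * w) - w * w * s = (2 * δ) • (w * w) := by
    have : s * (w * w) - w * w * s = (s * w - w * s) * w + w * (s * w - w * s) := by noncomm_ring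
    rw [this, hsw, smul_mul_assoc, mul_smul_comm, ← add_smul, two_mul]
  have h2 : 2 * δ ∈ S := Finset.mem_filter.mpr
    ⟨hin _ _ hww h1, mul_ne_zero two_ne_zero hδ0, w * w, mul_mem hw hw, hww, h1⟩
  have h3 := hmax _ h2
  simp only [norm_mul, Complex.norm_ofNat] at h3
  have h4 : 0 < ‖δ‖ := norm_pos_iff.mpr hδ0
  linarith

/-- S: the commutant of the part of nonzero degree is trivial -/
theorem Gr.sstep (G : Gr L h E Λ) (irr : ∀ T : Matrix n n ℂ, (∀ x ∈ L, T * x = x * T) → ∃ c : ℂ, T = c • (1 : Matrix n n ℂ))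
    (hE : E 0 ≠ 1)
    (hS : ∀ T : Matrix n n ℂ, (∀ s ∈ L, Dg s →
      (∃ c : ℂ, (1 - E 0).rank * (s - c • (1 : Matrix n n ℂ)).rank < Fintype.card n) → T * s = s * T) →
      ∃ c : ℂ, T = c • (1 : Matrix n n ℂ))
    {T : Matrix n n ℂ} (hT : T * h = h * T) (hT' : ∀ ν : ℝ, ν ≠ 0 → ∀ x ∈ Ld L h ν, T * x = x * T) :
    ∃ c : ℂ, T = c • (1 : Matrix n n ℂ) := by
  classical
  by_contra hsc
  have h1 : ∃ s ∈ L, Dg s ∧ (∃ c : ℂ, (1 - E 0).rank * (s - c • (1 : Matrix n n ℂ)).rank <
      Fintype.card n) ∧ T * s ≠ s * T := by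
    by_contra hno
    apply hsc
    apply hS T
    intro s hs hd hc
    by_contra hne
    exact hno ⟨s, hs, hd, hc, hne⟩
  obtain ⟨s, hs, hd, ⟨c, hc⟩, hTs⟩ := h1
  have hTB : T ∈ BB47 L h := ⟨hT, hT'⟩
  obtain ⟨w, hw, hw0, hww, δ, hδ0, hsw⟩ := exists_w47 (BB47 L h) hd
    (fun x hx => BB_br47 G hx hs) hTB hTs
  have hwr : w.rank ≤ (s - c • (1 : Matrix n n ℂ)).rank := by
    apply rank_le47 hδ0 _ hww
    rw [← hsw]
    simp [sub_mul, mul_sub]
  obtain ⟨p, hp, hpp, hps, hp0, hmin, hpr⟩ := minproj47 (BB47 L h) (fun x hx => BB_star47 G hx) hw hw0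
  -- the subspace generated by the range of `p` is everything
  set W : Submodule ℂ (n → ℂ) := Submodule.span ℂ {u | ∃ b ∈ BB47 L h, ∃ v : n → ℂ, u = (b * p) *ᵥ v}
    with hWd
  have hmemW : ∀ b ∈ BB47 L h, ∀ v : n → ℂ, (b * p) *ᵥ v ∈ W := fun b hb v =>
    Submodule.subset_span ⟨b, hb, v, rfl⟩
  have hWst : ∀ y ∈ L, ∀ u ∈ W, y *ᵥ u ∈ W := by
    intro y hy u hu
    induction hu using Submodule.span_induction with
    | mem u hu =>
      obtain ⟨b, hb, v, rfl⟩ := hu
      have e1 : y * p - p * y = (y * p - p * y) * p + p * (y * p - p * y) := by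
        have : y * p - p * y = y * (p * p) - (p * p) * y := by rw [hpp]
        rw [this]
        simp only [sub_mul, mul_sub, mul_assoc, hpp]
        rw [← mul_assoc p p, hpp]
        abel
      have e2 : y * (b * p) = (y * b - b * y) * p + (b * (y * p - p * y)) * p
          + (b * p) * ((y * p - p * y) + y) := by
        have : y * (b * p) = (y * b - b * y) * p + b * ((y * p - p * y) + p * y) := by
          noncomm_ring
        rw [this]
        conv_lhs => rw [e1]
        noncomm_ring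
      rw [Matrix.mulVec_mulVec, e2, Matrix.add_mulVec, Matrix.add_mulVec,
        ← Matrix.mulVec_mulVec v (b * p)]
      exact add_mem (add_mem (hmemW _ (BB_br47 G hb hy) v)
        (hmemW _ (mul_mem hb (BB_br47 G hp hy)) v)) (hmemW _ hb _)
    | zero => simp
    | add u v _ _ hu hv =>
      rw [Matrix.mulVec_add]
      exact W.add_mem hu hv
    | smul c u _ hu =>
      rw [Matrix.mulVec_smul]
      exact W.smul_mem c hu
  have hpv : ∀ {a : Matrix n n ℂ}, a ≠ 0 → ∃ v : n → ℂ, a *ᵥ v ≠ 0 := by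
    intro a ha
    by_contra hno
    push Not at hno
    exact ha (Matrix.mulVec_injective (funext fun v => by rw [hno v, Matrix.zero_mulVec]))
  have hWtop : W = ⊤ := by
    obtain ⟨P, hP1, hP2, hP3, hP4⟩ := proj W
    obtain ⟨c', hc'⟩ := irr P (fun x hx => hP4 x (hWst x hx) (hWst _ (G.st x hx)))
    obtain ⟨v, hv⟩ := hpv hp0
    have h1 : p *ᵥ v ∈ W := by
      have := hmemW 1 (one_mem _) v
      rwa [one_mul] at this
    have h2 := (hP3 _).mp h1
    rw [hc', Matrix.smul_mulVec, Matrix.one_mulVec] at h2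
    have h3 : c' = 1 := by
      have h4 : (c' - 1) • (p *ᵥ v) = 0 := by rw [sub_smul, h2, one_smul, sub_self]
      rcases smul_eq_zero.mp h4 with h5 | h5
      · exact sub_eq_zero.mp h5
      · exact absurd h5 hv
    rw [eq_top_iff]
    intro u _
    rw [hP3, hc', h3, one_smul, Matrix.one_mulVec]
  have hhp : h * p ≠ 0 := by
    intro h0
    have h1 : h = 0 := by
      by_contra hh0
      obtain ⟨v, hv⟩ := hpv hh0
      apply hv
      have hvW : v ∈ W := by rw [hWtop]; exact Submodule.mem_top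
      clear hv
      induction hvW using Submodule.span_induction with
      | mem u hu =>
        obtain ⟨b, hb, v, rfl⟩ := hu
        rw [Matrix.mulVec_mulVec, ← mul_assoc, ← hb.1, mul_assoc, h0]
        simp
      | zero => simp
      | add u v _ _ hu hv => rw [Matrix.mulVec_add, hu, hv, add_zero]
      | smul c u _ hu => rw [Matrix.mulVec_smul, hu, smul_zero]
    apply hE
    have h2 : ∀ μ : ℝ, μ ≠ 0 → E μ = 0 := by
      intro μ hμ
      have := G.spec.h_mul μ
      rw [h1, zero_mul] at this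
      rcases smul_eq_zero.mp this.symm with h3 | h3
      · exact absurd (by exact_mod_cast h3) hμ
      · exact h3
    have h3 : (1 : Matrix n n ℂ) - E 0 = (∑ μ ∈ Λ, E μ) * (1 - E 0) := by
      rw [G.spec.sum, one_mul]
    rw [Finset.sum_mul, Finset.sum_eq_zero] at h3
    · exact (sub_eq_zero.mp h3).symm
    · intro μ _
      by_cases hμ : μ = 0
      · rw [hμ, mul_sub, mul_one, G.spec.mul, if_pos rfl, sub_self]
      · rw [h2 μ hμ, zero_mul]
  obtain ⟨v, hv⟩ := hpv hhp
  set η := (h * p) *ᵥ v with hη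
  have hpη : p *ᵥ η = η := by
    rw [hη, Matrix.mulVec_mulVec, ← mul_assoc, hp.1, mul_assoc, hpp]
  let M : Submodule ℂ (Matrix n n ℂ) :=
    { carrier := {x | x ∈ BB47 L h ∧ x * p = x}
      add_mem' := by
        rintro a b ⟨ha, ha'⟩ ⟨hb, hb'⟩
        exact ⟨add_mem ha hb, by rw [add_mul, ha', hb']⟩
      zero_mem' := ⟨zero_mem _, by simp⟩
      smul_mem' := by
        rintro c a ⟨ha, ha'⟩
        exact ⟨SMulMemClass.smul_mem c ha, by rw [smul_mul_assoc, ha']⟩ }
  have hE0h : (1 - E 0) * h = h := by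
    rw [sub_mul, one_mul, G.spec.mul_h]
    simp
  have hM : finrank ℂ M ≤ (1 - E 0).rank := by
    let φ : M →ₗ[ℂ] LinearMap.range (1 - E 0).mulVecLin :=
      { toFun := fun x => ⟨x.1 *ᵥ η, by
          refine ⟨x.1 *ᵥ η, ?_⟩
          rw [Matrix.mulVecLin_apply]
          have : x.1 *ᵥ η = h *ᵥ (x.1 *ᵥ (p *ᵥ v)) := by
            rw [hη, Matrix.mulVec_mulVec, Matrix.mulVec_mulVec, Matrix.mulVec_mulVec, ← mul_assoc,
              x.2.1.1]
          rw [this, Matrix.mulVec_mulVec, hE0h]⟩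
        map_add' := by
          intro x y
          apply Subtype.ext
          simp [Matrix.add_mulVec]
        map_smul' := by
          intro c x
          apply Subtype.ext
          simp [Matrix.smul_mulVec] }
    rw [rank_mv47]
    apply LinearMap.finrank_le_finrank_of_injective (f := φ)
    rw [← LinearMap.ker_eq_bot, LinearMap.ker_eq_bot']
    intro x hx
    have hx0 : x.1 *ᵥ η = 0 := congrArg Subtype.val hx
    have hxp : x.1 * p = x.1 := x.2.2
    have hxp' : p * x.1ᴴ = x.1ᴴ := by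
      have := congrArg conjTranspose hxp
      rwa [conjTranspose_mul, hps] at this
    obtain ⟨c', hc'⟩ := hmin (x.1ᴴ * x.1) (mul_mem (BB_star47 G x.2.1) x.2.1)
    have e1 : p * (x.1ᴴ * x.1) * p = x.1ᴴ * x.1 := by
      rw [← mul_assoc, hxp', mul_assoc, hxp]
    rw [e1] at hc'
    have e2 : c' • η = 0 := by
      have : (x.1ᴴ * x.1) *ᵥ η = 0 := by rw [← Matrix.mulVec_mulVec, hx0, Matrix.mulVec_zero]
      rw [hc', Matrix.smul_mulVec, hpη] at this
      exact this
    have hc0 : c' = 0 := by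
      rcases smul_eq_zero.mp e2 with h3 | h3
      · exact h3
      · exact absurd h3 hv
    rw [hc0, zero_smul] at hc'
    exact Subtype.ext (eq_zero_of_mul hc')
  have hcard : Fintype.card n ≤ finrank ℂ M * p.rank := by
    let ψ : TensorProduct ℂ M (LinearMap.range p.mulVecLin) →ₗ[ℂ] (n → ℂ) :=
      TensorProduct.lift (LinearMap.mk₂ ℂ
        (fun (x : M) (u : LinearMap.range p.mulVecLin) => x.1 *ᵥ u.1)
        (by intro x y u; simp [Matrix.add_mulVec])
        (by intro c x u; simp [Matrix.smul_mulVec])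
        (by intro x u v; simp [Matrix.mulVec_add])
        (by intro c x u; simp [Matrix.mulVec_smul]))
    have h1 : LinearMap.range ψ = ⊤ := by
      rw [eq_top_iff, ← hWtop, hWd, Submodule.span_le]
      rintro _ ⟨b, hb, u, rfl⟩
      refine ⟨TensorProduct.tmul ℂ (⟨b * p, mul_mem hb hp, by rw [mul_assoc, hpp]⟩ : M)
        (⟨p *ᵥ u, u, rfl⟩ : LinearMap.range p.mulVecLin), ?_⟩
      simp only [ψ, TensorProduct.lift.tmul, LinearMap.mk₂_apply, Matrix.mulVec_mulVec, mul_assoc,
        hpp]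
    have h2 := LinearMap.finrank_range_le ψ
    rw [h1, finrank_top, Module.finrank_tensorProduct, Module.finrank_pi] at h2
    exact h2
  have h5 : finrank ℂ M * p.rank ≤ (1 - E 0).rank * (s - c • (1 : Matrix n n ℂ)).rank :=
    Nat.mul_le_mul hM (hpr.trans hwr)
  omega

end GH
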